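import Pool.Agent.helper12.TY.Spec

/-!
# Row YFS of the project ty (MP_baa4d7_al): finitely many `d`
-/

set_option autoImplicit false

namespace Pool.Agent.TY

open Pool.Agent.helper58.DC Pool.Agent.DI Pool.Agent.GR Pool.Agent.OB Pool.Agent.TZ

/-- The defects of the characters of a subgroup form a finite set. -/
theorem YFS_defects (hB2 : B2_stmt) (Γ : Type) [Group Γ] [Finite Γ] (p : ℕ) (N : Subgroup Γ) :
    {d : ℤ | ∃ φ ∈ IrrOn N, Defect p N φ d}.Finite := by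
  have h1 : {d : ℤ | ∃ φ ∈ IrrOn N, Defect p N φ d} = ⋃ φ ∈ IrrOn N, {d : ℤ | Defect p N φ d} := by
    ext d
    simp
  rw [h1]
  refine Set.Finite.biUnion (hB2 Γ N).1 ?_
  intro φ _
  refine Set.Subsingleton.finite ?_
  rintro d ⟨n, hn, hd⟩ e ⟨m, hm, he⟩
  have hnm : n = m := by
    have h2 : (n : ℂ) = (m : ℂ) := by rw [← hn, ← hm]
    exact_mod_cast h2
  rw [hd, he, hnm]

/-- Row YFS: finitely many `d`. -/
theorem YFS (hB2 : B2_stmt) : YFS_stmt := by
  intro Γ _ _ p M G' τ L P M'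
  have hfin : (⋃ N : Subgroup Γ, {d : ℤ | ∃ φ ∈ IrrOn N, Defect p N φ d}).Finite :=
    Set.finite_iUnion fun N => YFS_defects hB2 Γ p N
  refine hfin.subset ?_
  intro d hd
  by_contra hcon
  apply hd
  have hg : ∀ N : Subgroup Γ, gfun p M G' τ d N = 0 := by
    intro N
    have h0 : IsEmpty {φ : Γ → ℂ // φ ∈ IrrOn N ∧ Defect p N φ d ∧ Cov M G' τ φ} := by
      constructor
      rintro ⟨φ, h1, h2, _⟩
      exact hcon (Set.mem_iUnion.2 ⟨N, φ, h1, h2⟩)
    unfold gfun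
    rw [Nat.card_eq_zero.2 (Or.inl h0)]
    simp
  unfold cSum
  simp [hg]

end Pool.Agent.TY
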